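import Pool.Agent.W930.NM.CltC

set_option autoImplicit false
set_option linter.unusedVariables false

/-!
The central limit theorem for digit sums.
-/

namespace Pool.Agent.W930.NM

open Filter Topology Set Finset Complex MeasureTheory ProbabilityTheory
open Pool.Agent.W261.NM

lemma Z_le {b K : ℕ} (hb : 2 ≤ b) (hb0 : 0 < b) (hK : 1 ≤ K) (y u : ℝ) :
    W (X b) (dw hb0 K y) ≤ u ↔ ((∑ k ∈ Finset.range K, dig b y (k + 1) : ℤ) : ℝ) ≤
      (K : ℝ) * ((b : ℝ) - 1) / 2 + u * Real.sqrt ((K : ℝ) * ((b : ℝ) ^ 2 - 1) / 12) := by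
  have hb' : (2 : ℝ) ≤ b := by exact_mod_cast hb
  have hK' : (0 : ℝ) < K := by exact_mod_cast hK
  have h0 : (0 : ℝ) < ((b : ℝ) ^ 2 - 1) / 12 := by nlinarith
  have hs : 0 < Real.sqrt (((b : ℝ) ^ 2 - 1) / 12) := Real.sqrt_pos.2 h0
  have hk : 0 < Real.sqrt (K : ℝ) := Real.sqrt_pos.2 hK'
  have e1 : Real.sqrt ((K : ℝ) * ((b : ℝ) ^ 2 - 1) / 12) =
      Real.sqrt (K : ℝ) * Real.sqrt (((b : ℝ) ^ 2 - 1) / 12) := by
    rw [← Real.sqrt_mul hK'.le]
    congr 1
    ring
  have e2 : ((∑ k ∈ Finset.range K, dig b y (k + 1) : ℤ) : ℝ) =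
      ∑ k : Fin K, (((dw hb0 K y k : Fin b) : ℕ) : ℝ) := by
    rw [← Fin.sum_univ_eq_sum_range (fun k => dig b y (k + 1)) K]
    push_cast
    refine Finset.sum_congr rfl fun k _ => ?_
    rw [← dw_cast hb0 K y k]
    push_cast
    rfl
  rw [e1, e2]
  have e3 : W (X b) (dw hb0 K y) =
      (∑ k : Fin K, (((dw hb0 K y k : Fin b) : ℕ) : ℝ) - (K : ℝ) * ((b : ℝ) - 1) / 2) /
        (Real.sqrt (K : ℝ) * Real.sqrt (((b : ℝ) ^ 2 - 1) / 12)) := by
    unfold W X
    rw [← Finset.sum_div, Finset.sum_sub_distrib, Finset.sum_const, Finset.card_univ,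
      Fintype.card_fin, nsmul_eq_mul]
    field_simp
  rw [e3, div_le_iff₀ (by positivity), sub_le_iff_le_add, add_comm]

/-- the characteristic functions converge -/
lemma char_tendsto (b : ℕ) (hb : 2 ≤ b) (hb0 : 0 < b) (N K : ℕ → ℕ) (y : ℕ → ℕ → ℝ)
    (hN : ∀ j, 1 ≤ N j) (hK : Tendsto K atTop atTop)
    (hInd : ∀ s A : ℕ, ∃ E : ℕ → ℝ, (∀ j, 0 ≤ E j) ∧
      (∀ᶠ j in atTop, Ind b s (N j) (K j) (E j) (y j)) ∧
      Tendsto (fun j => (K j : ℝ) ^ A * E j) atTop (𝓝 0)) (t : ℝ) :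
    Tendsto (fun j => avc (fun m : Fin (N j) =>
      cexp (((t * W (X b) (dw hb0 (K j) (y j m)) : ℝ) : ℂ) * I))) atTop
      (𝓝 (cexp (- (t : ℂ) ^ 2 / 2))) := by
  have hb' : (2 : ℝ) ≤ b := by exact_mod_cast hb
  have h0 : (0 : ℝ) < ((b : ℝ) ^ 2 - 1) / 12 := by nlinarith
  have hs : 0 < Real.sqrt (((b : ℝ) ^ 2 - 1) / 12) := Real.sqrt_pos.2 h0
  set c : ℝ := b / Real.sqrt (((b : ℝ) ^ 2 - 1) / 12) with hc
  have hc0 : 0 < c := by positivity
  have h1 := (model_tendsto b hb t).comp hK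
  have h2 : Tendsto (fun j => avc (fun m : Fin (N j) =>
      cexp (((t * W (X b) (dw hb0 (K j) (y j m)) : ℝ) : ℂ) * I)) -
      avc (fun v : Fin (K j) → Fin b => cexp (((t * W (X b) v : ℝ) : ℂ) * I))) atTop (𝓝 0) := by
    rw [Metric.tendsto_nhds]
    intro ε hε
    obtain ⟨n, hn⟩ : ∃ n : ℕ, 2 * (2 * Real.exp (2 * t ^ 2 * c ^ 2) / 4 ^ n) < ε / 2 := by
      have h3 : Tendsto (fun n : ℕ => (4 * Real.exp (2 * t ^ 2 * c ^ 2)) * (1 / 4 : ℝ) ^ n) atTop
          (𝓝 ((4 * Real.exp (2 * t ^ 2 * c ^ 2)) * 0)) :=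
        (tendsto_pow_atTop_nhds_zero_of_lt_one (by norm_num) (by norm_num)).const_mul _
      rw [mul_zero] at h3
      obtain ⟨n, hn⟩ := (h3.eventually (gt_mem_nhds (half_pos hε))).exists
      refine ⟨n, lt_of_le_of_lt (le_of_eq ?_) hn⟩
      rw [one_div, inv_pow]
      ring
    obtain ⟨E, hE0, hE1, hE2⟩ := hInd (2 * n) (2 * n)
    have h3 : Tendsto (fun j => (∑ q ∈ Finset.range (2 * n + 1), |t| ^ q / q.factorial *
        ((b : ℝ) ^ q * c ^ q)) * ((K j : ℝ) ^ (2 * n) * E j)) atTop (𝓝 0) := by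
      simpa using hE2.const_mul (∑ q ∈ Finset.range (2 * n + 1), |t| ^ q / q.factorial *
        ((b : ℝ) ^ q * c ^ q))
    filter_upwards [hE1, h3.eventually (gt_mem_nhds (half_pos hε)), hK.eventually_ge_atTop 1]
      with j h4 h5 h6
    rw [dist_zero_right]
    refine lt_of_le_of_lt (compare_even (fun m : Fin (N j) => W (X b) (dw hb0 (K j) (y j m)))
      (fun v : Fin (K j) → Fin b => W (X b) v) t n) ?_
    have h7 : ∑ q ∈ Finset.range (2 * n + 1), |t| ^ q / q.factorial *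
        |av (fun m : Fin (N j) => W (X b) (dw hb0 (K j) (y j m)) ^ q) -
          av (fun v : Fin (K j) → Fin b => W (X b) v ^ q)| ≤
        (∑ q ∈ Finset.range (2 * n + 1), |t| ^ q / q.factorial *
        ((b : ℝ) ^ q * c ^ q)) * ((K j : ℝ) ^ (2 * n) * E j) := by
      rw [Finset.sum_mul]
      refine Finset.sum_le_sum fun q hq => ?_
      rw [mul_assoc]
      refine mul_le_mul_of_nonneg_left ?_ (by positivity)
      exact mom_close h4 hb0 (hE0 j) (hN j) h6 (X b) c hc0.le (abs_X b) q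
        (by rw [Finset.mem_range] at hq; omega)
    have h8 := mom_model b hb0 (K j) h6 (X b) c hc0 (sum_X b) (abs_X b) t n
    linarith
  have h3 := h2.add h1
  rw [zero_add] at h3
  refine h3.congr fun j => ?_
  simp only [Function.comp_apply]
  ring

/-- CLT -/
theorem clt : Pool.Agent.W261.NM.S_clt := by
  intro b hb N K y hN hK hInd u
  have hb0 : 0 < b := by omega
  have hchar := char_tendsto b hb hb0 N K y hN hK hInd
  have hNZ : ∀ j, NeZero (N j) := fun j => ⟨by have := hN j; omega⟩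
  set Z : (j : ℕ) → Fin (N j) → ℝ := fun j m => W (X b) (dw hb0 (K j) (y j m)) with hZ
  have hZm : ∀ j, Measurable (Z j) := fun j => measurable_of_finite _
  let μ : ℕ → ProbabilityMeasure ℝ := fun j =>
    ⟨(PMF.uniformOfFintype (Fin (N j))).toMeasure.map (Z j),
      Measure.isProbabilityMeasure_map (hZm j).aemeasurable⟩
  let μ0 : ProbabilityMeasure ℝ := ⟨gaussianReal 0 1, inferInstance⟩
  have hlim : Tendsto μ atTop (𝓝 μ0) := by
    rw [ProbabilityMeasure.tendsto_iff_tendsto_charFun]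
    intro t
    have h1 : charFun (μ0 : Measure ℝ) t = cexp (- (t : ℂ) ^ 2 / 2) := by
      change charFun (gaussianReal 0 1) t = _
      rw [charFun_gaussianReal]
      congr 1
      push_cast
      ring
    rw [h1]
    refine (hchar t).congr fun j => ?_
    exact (charFun_unif (N j) (Z j) t).symm
  have hE := ProbabilityMeasure.tendsto_measure_of_null_frontier_of_tendsto' hlim (E := Set.Iic u)
    (by
      change gaussianReal 0 1 (frontier (Set.Iic u)) = 0
      rw [frontier_Iic]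
      have := noAtoms_gaussianReal (μ := 0) (v := 1) one_ne_zero
      exact measure_singleton u)
  have hE' := (ENNReal.tendsto_toReal (measure_ne_top (gaussianReal 0 1) (Set.Iic u))).comp hE
  refine hE'.congr' ?_
  filter_upwards [hK.eventually_ge_atTop 1] with j hj
  simp only [Function.comp_apply]
  have h2 : ((μ j : Measure ℝ) (Set.Iic u)).toReal = av (fun m : Fin (N j) =>
      if Z j m ≤ u then (1 : ℝ) else 0) := by
    classical
    change (((PMF.uniformOfFintype (Fin (N j))).toMeasure.map (Z j)) (Set.Iic u)).toReal = _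
    rw [Measure.map_apply (hZm j) measurableSet_Iic,
      PMF.toMeasure_uniformOfFintype_apply _ ((hZm j) measurableSet_Iic)]
    unfold av
    rw [Finset.sum_boole, ENNReal.toReal_div, ENNReal.toReal_natCast, ENNReal.toReal_natCast]
    congr 2
    rw [Fintype.card_subtype]
    rfl
  rw [h2]
  unfold av
  rw [Fintype.card_fin, Fin.sum_univ_eq_sum_range
      (fun m => if W (X b) (dw hb0 (K j) (y j m)) ≤ u then (1 : ℝ) else 0) (N j), Finset.sum_boole]
  congr 3
  ext m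
  simp only [Finset.mem_filter, Finset.mem_range]
  rw [Z_le hb hb0 hj]

end Pool.Agent.W930.NM
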