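import Mathlib

set_option autoImplicit false
set_option linter.unusedVariables false

/-!
Averages over finite types, comparison of characteristic functions by moments.
-/

namespace Pool.Agent.W930.NM

open Filter Topology Set Finset Complex

/-! ### Taylor polynomials of the exponential function -/

/-- the Taylor polynomial of `exp (i x)` -/
noncomputable def Tn (n : ℕ) (x : ℝ) : ℂ :=
  ∑ q ∈ Finset.range n, ((x : ℂ) * I) ^ q / (q.factorial : ℂ)

lemma hasDeriv_rem (n : ℕ) (s : ℝ) :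
    HasDerivAt (fun s : ℝ => cexp ((s : ℂ) * I) - Tn (n + 1) s) (I * (cexp ((s : ℂ) * I) - Tn n s))
      s := by
  have h0 : HasDerivAt (fun s : ℝ => (s : ℂ) * I) I s := by
    have := (Complex.ofRealCLM.hasDerivAt (x := s)).mul_const I
    simpa using this
  have h1 : HasDerivAt (fun s : ℝ => cexp ((s : ℂ) * I)) (cexp ((s : ℂ) * I) * I) s := h0.cexp
  have h2 : HasDerivAt (fun s : ℝ => Tn (n + 1) s) (I * Tn n s) s := by
    have e : (fun s : ℝ => Tn (n + 1) s) = fun s : ℝ =>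
        (∑ q ∈ Finset.range n, ((s : ℂ) * I) ^ (q + 1) / ((q + 1).factorial : ℂ)) + 1 := by
      funext s
      unfold Tn
      rw [Finset.sum_range_succ']
      simp
    rw [e]
    have h3 : HasDerivAt (fun s : ℝ =>
        ∑ q ∈ Finset.range n, ((s : ℂ) * I) ^ (q + 1) / ((q + 1).factorial : ℂ))
        (∑ q ∈ Finset.range n, I * (((s : ℂ) * I) ^ q / (q.factorial : ℂ))) s := by
      apply HasDerivAt.fun_sum
      intro q _
      have h4 := (h0.fun_pow (q + 1)).div_const ((q + 1).factorial : ℂ)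
      refine h4.congr_deriv ?_
      rw [Nat.add_sub_cancel, Nat.factorial_succ]
      have hq : ((q.factorial : ℕ) : ℂ) ≠ 0 := by exact_mod_cast q.factorial_ne_zero
      have hq1 : ((q + 1 : ℕ) : ℂ) ≠ 0 := by exact_mod_cast Nat.succ_ne_zero q
      push_cast at hq1 ⊢
      field_simp
    have h5 := h3.add_const (1 : ℂ)
    refine h5.congr_deriv ?_
    unfold Tn
    rw [Finset.mul_sum]
  refine (h1.sub h2).congr_deriv ?_
  ring

lemma taylor_pos (n : ℕ) : ∀ x : ℝ, 0 ≤ x →
    ‖cexp ((x : ℂ) * I) - Tn n x‖ ≤ x ^ n / n.factorial := by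
  induction n with
  | zero =>
    intro x _
    simp [Tn, Complex.norm_exp_ofReal_mul_I]
  | succ n ih =>
    intro x hx
    have key := image_norm_le_of_norm_deriv_right_le_deriv_boundary
      (f := fun s : ℝ => cexp ((s : ℂ) * I) - Tn (n + 1) s)
      (f' := fun s : ℝ => I * (cexp ((s : ℂ) * I) - Tn n s)) (a := 0) (b := x)
      (B := fun s : ℝ => s ^ (n + 1) / (n + 1).factorial) (B' := fun s : ℝ => s ^ n / n.factorial)
      (fun s _ => (hasDeriv_rem n s).continuousAt.continuousWithinAt)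
      (fun s _ => (hasDeriv_rem n s).hasDerivWithinAt)
      (by
        simp only [Tn, ofReal_zero, zero_mul, exp_zero]
        rw [Finset.sum_range_succ']
        simp)
      (fun s => by
        have h4 := (hasDerivAt_pow (n + 1) s).div_const ((n + 1).factorial : ℝ)
        refine h4.congr_deriv ?_
        rw [Nat.add_sub_cancel, Nat.factorial_succ]
        have hq : ((n.factorial : ℕ) : ℝ) ≠ 0 := by exact_mod_cast n.factorial_ne_zero
        have hq1 : ((n + 1 : ℕ) : ℝ) ≠ 0 := by exact_mod_cast Nat.succ_ne_zero n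
        push_cast at hq1 ⊢
        field_simp)
      (fun s hs => by
        rw [norm_mul, norm_I, one_mul]
        exact ih s hs.1)
    exact key ⟨hx, le_rfl⟩

lemma taylor (n : ℕ) (x : ℝ) : ‖cexp ((x : ℂ) * I) - Tn n x‖ ≤ |x| ^ n / n.factorial := by
  rcases le_total 0 x with h | h
  · rw [abs_of_nonneg h]; exact taylor_pos n x h
  · rw [abs_of_nonpos h]
    have h1 := taylor_pos n (-x) (by linarith)
    have h2 : cexp ((x : ℂ) * I) - Tn n x =
        (starRingEnd ℂ) (cexp (((-x : ℝ) : ℂ) * I) - Tn n (-x)) := by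
      rw [map_sub, ← Complex.exp_conj]
      unfold Tn
      rw [map_sum]
      congr 1
      · congr 1
        rw [map_mul, conj_ofReal, conj_I]
        push_cast; ring
      · refine Finset.sum_congr rfl fun q _ => ?_
        rw [map_div₀, map_pow, map_mul, conj_ofReal, conj_I, map_natCast]
        push_cast
        congr 2
        ring
    rw [h2, RCLike.norm_conj]
    exact h1

/-! ### Averages -/

/-- averages -/
noncomputable def av {Ω : Type} [Fintype Ω] (f : Ω → ℝ) : ℝ := (∑ ω, f ω) / Fintype.card Ω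

/-- complex averages -/
noncomputable def avc {Ω : Type} [Fintype Ω] (f : Ω → ℂ) : ℂ := (∑ ω, f ω) / Fintype.card Ω

section av

variable {Ω : Type} [Fintype Ω]

lemma avc_ofReal (f : Ω → ℝ) : avc (fun ω => (f ω : ℂ)) = (av f : ℂ) := by
  unfold av avc; push_cast; rfl

lemma norm_avc_le (f : Ω → ℂ) (g : Ω → ℝ) (h : ∀ ω, ‖f ω‖ ≤ g ω) : ‖avc f‖ ≤ av g := by
  unfold av avc
  rw [norm_div, norm_natCast]
  gcongr
  exact (norm_sum_le _ _).trans (Finset.sum_le_sum fun ω _ => h ω)

lemma av_mono {f g : Ω → ℝ} (h : ∀ ω, f ω ≤ g ω) : av f ≤ av g := by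
  unfold av
  gcongr with ω
  exact h ω

lemma av_nonneg {f : Ω → ℝ} (h : ∀ ω, 0 ≤ f ω) : 0 ≤ av f := by
  unfold av
  have : 0 ≤ ∑ ω, f ω := Finset.sum_nonneg fun ω _ => h ω
  positivity

lemma av_const_mul (c : ℝ) (f : Ω → ℝ) : av (fun ω => c * f ω) = c * av f := by
  unfold av
  rw [← Finset.mul_sum, mul_div_assoc]

lemma av_add (f g : Ω → ℝ) : av (fun ω => f ω + g ω) = av f + av g := by
  unfold av
  rw [Finset.sum_add_distrib, add_div]

lemma av_sum {ι : Type} (s : Finset ι) (f : ι → Ω → ℝ) :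
    av (fun ω => ∑ i ∈ s, f i ω) = ∑ i ∈ s, av (f i) := by
  unfold av
  rw [Finset.sum_comm, Finset.sum_div]

/-- the characteristic function and the moments -/
lemma char_taylor (Z : Ω → ℝ) (t : ℝ) (n : ℕ) :
    ‖avc (fun ω => cexp (((t * Z ω : ℝ) : ℂ) * I)) -
      ∑ q ∈ Finset.range n, ((t : ℂ) * I) ^ q / (q.factorial : ℂ) *
        ((av fun ω => Z ω ^ q : ℝ) : ℂ)‖ ≤
      |t| ^ n / n.factorial * av fun ω => |Z ω| ^ n := by
  have e : avc (fun ω => cexp (((t * Z ω : ℝ) : ℂ) * I)) -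
      ∑ q ∈ Finset.range n, ((t : ℂ) * I) ^ q / (q.factorial : ℂ) *
        ((av fun ω => Z ω ^ q : ℝ) : ℂ) =
      avc (fun ω => cexp (((t * Z ω : ℝ) : ℂ) * I) - Tn n (t * Z ω)) := by
    have h1 : avc (fun ω => Tn n (t * Z ω)) =
        ∑ q ∈ Finset.range n, ((t : ℂ) * I) ^ q / (q.factorial : ℂ) *
          ((av fun ω => Z ω ^ q : ℝ) : ℂ) := by
      unfold avc av Tn
      rw [Finset.sum_comm, Finset.sum_div]
      refine Finset.sum_congr rfl fun q _ => ?_
      push_cast
      rw [← mul_div_assoc, Finset.mul_sum]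
      congr 1
      refine Finset.sum_congr rfl fun ω _ => ?_
      ring
    rw [← h1]
    unfold avc
    rw [← sub_div, ← Finset.sum_sub_distrib]
  rw [e]
  refine (norm_avc_le _ _ fun ω => taylor n (t * Z ω)).trans (le_of_eq ?_)
  rw [← av_const_mul]
  congr 1
  funext ω
  rw [abs_mul, mul_pow]
  ring

/-- comparison of characteristic functions by moments -/
lemma compare {Ω' : Type} [Fintype Ω'] (Z : Ω → ℝ) (W : Ω' → ℝ) (t : ℝ) (n : ℕ) :
    ‖avc (fun ω => cexp (((t * Z ω : ℝ) : ℂ) * I)) - avc (fun ω => cexp (((t * W ω : ℝ) : ℂ) * I))‖ ≤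
      (∑ q ∈ Finset.range n, |t| ^ q / q.factorial *
        |av (fun ω => Z ω ^ q) - av (fun ω => W ω ^ q)|) +
      |t| ^ n / n.factorial * (av (fun ω => |Z ω| ^ n) + av (fun ω => |W ω| ^ n)) := by
  set A := avc (fun ω => cexp (((t * Z ω : ℝ) : ℂ) * I)) with hA
  set B := avc (fun ω => cexp (((t * W ω : ℝ) : ℂ) * I)) with hB
  set a := ∑ q ∈ Finset.range n, ((t : ℂ) * I) ^ q / (q.factorial : ℂ) *
        ((av fun ω => Z ω ^ q : ℝ) : ℂ) with ha
  set b := ∑ q ∈ Finset.range n, ((t : ℂ) * I) ^ q / (q.factorial : ℂ) *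
        ((av fun ω => W ω ^ q : ℝ) : ℂ) with hb
  have h1 : ‖A - a‖ ≤ _ := char_taylor Z t n
  have h2 : ‖B - b‖ ≤ _ := char_taylor W t n
  have h3 : ‖a - b‖ ≤ ∑ q ∈ Finset.range n, |t| ^ q / q.factorial *
        |av (fun ω => Z ω ^ q) - av (fun ω => W ω ^ q)| := by
    rw [ha, hb, ← Finset.sum_sub_distrib]
    refine (norm_sum_le _ _).trans (Finset.sum_le_sum fun q _ => ?_)
    rw [← mul_sub, norm_mul, norm_div, norm_pow, norm_mul, norm_I, mul_one, norm_natCast,
      norm_real, ← ofReal_sub, norm_real, Real.norm_eq_abs, Real.norm_eq_abs]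
  have e : A - B = (A - a) + (a - b) - (B - b) := by ring
  rw [e]
  calc ‖(A - a) + (a - b) - (B - b)‖ ≤ ‖(A - a) + (a - b)‖ + ‖B - b‖ := norm_sub_le _ _
    _ ≤ ‖A - a‖ + ‖a - b‖ + ‖B - b‖ := by gcongr; exact norm_add_le _ _
    _ ≤ _ := by
        rw [mul_add]
        linarith

/-- comparison with an even number of moments -/
lemma compare_even {Ω' : Type} [Fintype Ω'] (Z : Ω → ℝ) (W : Ω' → ℝ) (t : ℝ) (n : ℕ) :
    ‖avc (fun ω => cexp (((t * Z ω : ℝ) : ℂ) * I)) - avc (fun ω => cexp (((t * W ω : ℝ) : ℂ) * I))‖ ≤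
      (∑ q ∈ Finset.range (2 * n + 1), |t| ^ q / q.factorial *
        |av (fun ω => Z ω ^ q) - av (fun ω => W ω ^ q)|) +
      2 * (|t| ^ (2 * n) / (2 * n).factorial * av (fun ω => W ω ^ (2 * n))) := by
  refine (compare Z W t (2 * n)).trans ?_
  rw [Finset.sum_range_succ]
  have h1 : ∀ x : ℝ, |x| ^ (2 * n) = x ^ (2 * n) := fun x => by
    rw [pow_mul, sq_abs, ← pow_mul]
  have h2 : av (fun ω => |Z ω| ^ (2 * n)) = av (fun ω => Z ω ^ (2 * n)) := by
    congr 1; funext ω; exact h1 _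
  have h3 : av (fun ω => |W ω| ^ (2 * n)) = av (fun ω => W ω ^ (2 * n)) := by
    congr 1; funext ω; exact h1 _
  rw [h2, h3]
  have h4 : 0 ≤ |t| ^ (2 * n) / ((2 * n).factorial : ℝ) := by positivity
  have h5 := le_abs_self (av (fun ω => Z ω ^ (2 * n)) - av (fun ω => W ω ^ (2 * n)))
  nlinarith

end av

end Pool.Agent.W930.NM
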