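import Pool.Agent.W930.NM.CltA
import Pool.Agent.W349.NM.Model

set_option autoImplicit false
set_option linter.unusedVariables false

/-!
Comparison of moments of digit sums, the model.
-/

namespace Pool.Agent.W930.NM

open Filter Topology Set Finset Complex

/-! ### moments from the probabilities of cylinder events -/

open Classical in
lemma pow_expand {K b : ℕ} (D : Fin K → Fin b) (X : Fin b → ℝ) (q : ℕ) :
    (∑ k, X (D k)) ^ q = ∑ κ : Fin q → Fin K, ∑ c : Fin q → Fin b,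
      (∏ i, X (c i)) * (if ∀ i, D (κ i) = c i then (1 : ℝ) else 0) := by
  rw [Fintype.sum_pow]
  refine Finset.sum_congr rfl fun κ _ => ?_
  rw [Finset.sum_eq_single (fun i => D (κ i))]
  · simp
  · intro c _ hc
    rw [if_neg, mul_zero]
    intro h
    exact hc (funext fun i => (h i).symm)
  · intro h
    exact absurd (Finset.mem_univ _) h

open Classical in
lemma mom {Ω Ω' : Type} [Fintype Ω] [Fintype Ω'] {K b : ℕ} (D : Ω → Fin K → Fin b)
    (D' : Ω' → Fin K → Fin b) (X : Fin b → ℝ) (M E : ℝ) (hM0 : 0 ≤ M) (hM : ∀ a, |X a| ≤ M) (q : ℕ)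
    (h : ∀ (κ : Fin q → Fin K) (c : Fin q → Fin b),
      |av (fun ω => if ∀ i, D ω (κ i) = c i then (1 : ℝ) else 0) -
        av (fun ω => if ∀ i, D' ω (κ i) = c i then (1 : ℝ) else 0)| ≤ E) :
    |av (fun ω => (∑ k, X (D ω k)) ^ q) - av (fun ω => (∑ k, X (D' ω k)) ^ q)| ≤
      (K : ℝ) ^ q * ((b : ℝ) ^ q * (M ^ q * E)) := by
  have e : ∀ {Ω'' : Type} [Fintype Ω''] (D'' : Ω'' → Fin K → Fin b),
      av (fun ω => (∑ k, X (D'' ω k)) ^ q) = ∑ κ : Fin q → Fin K, ∑ c : Fin q → Fin b,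
        (∏ i, X (c i)) * av (fun ω => if ∀ i, D'' ω (κ i) = c i then (1 : ℝ) else 0) := by
    intro Ω'' _ D''
    simp_rw [pow_expand]
    rw [av_sum]
    refine Finset.sum_congr rfl fun κ _ => ?_
    rw [av_sum]
    refine Finset.sum_congr rfl fun c _ => ?_
    rw [av_const_mul]
  rw [e D, e D', ← Finset.sum_sub_distrib]
  simp_rw [← Finset.sum_sub_distrib, ← mul_sub]
  refine (Finset.abs_sum_le_sum_abs _ _).trans ?_
  have h1 : ∀ κ ∈ (Finset.univ : Finset (Fin q → Fin K)), |∑ c : Fin q → Fin b, (∏ i, X (c i)) *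
      (av (fun ω => if ∀ i, D ω (κ i) = c i then (1 : ℝ) else 0) -
        av (fun ω => if ∀ i, D' ω (κ i) = c i then (1 : ℝ) else 0))| ≤ (b : ℝ) ^ q * (M ^ q * E) := by
    intro κ _
    refine (Finset.abs_sum_le_sum_abs _ _).trans ?_
    have h2 : ∀ c ∈ (Finset.univ : Finset (Fin q → Fin b)), |(∏ i, X (c i)) *
      (av (fun ω => if ∀ i, D ω (κ i) = c i then (1 : ℝ) else 0) -
        av (fun ω => if ∀ i, D' ω (κ i) = c i then (1 : ℝ) else 0))| ≤ M ^ q * E := by
      intro c _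
      rw [abs_mul, Finset.abs_prod]
      have h3 : ∏ i, |X (c i)| ≤ M ^ q := by
        refine (Finset.prod_le_prod (fun i _ => abs_nonneg _) fun i _ => hM (c i)).trans ?_
        simp
      exact mul_le_mul h3 (h κ c) (abs_nonneg _) (by positivity)
    refine (Finset.sum_le_card_nsmul _ _ _ h2).trans (le_of_eq ?_)
    rw [Finset.card_univ, Fintype.card_fun, Fintype.card_fin, Fintype.card_fin, nsmul_eq_mul]
    push_cast
    ring
  refine (Finset.sum_le_card_nsmul _ _ _ h1).trans (le_of_eq ?_)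
  rw [Finset.card_univ, Fintype.card_fun, Fintype.card_fin, Fintype.card_fin, nsmul_eq_mul]
  push_cast
  ring

/-! ### the model -/

lemma prod_avc (b K : ℕ) (f : Fin b → ℂ) :
    avc (fun v : Fin K → Fin b => ∏ k, f (v k)) = (avc f) ^ K := by
  unfold avc
  rw [div_pow, Fintype.sum_pow, Fintype.card_fun, Fintype.card_fin, Fintype.card_fin]
  push_cast
  rfl

lemma prod_av (b K : ℕ) (f : Fin b → ℝ) :
    av (fun v : Fin K → Fin b => ∏ k, f (v k)) = (av f) ^ K := by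
  unfold av
  rw [div_pow, Fintype.sum_pow, Fintype.card_fun, Fintype.card_fin, Fintype.card_fin]
  push_cast
  rfl

/-- normalised sum -/
noncomputable def W {b K : ℕ} (X : Fin b → ℝ) (v : Fin K → Fin b) : ℝ :=
  (Real.sqrt K)⁻¹ * ∑ k, X (v k)

lemma char_model (b K : ℕ) (X : Fin b → ℝ) (t : ℝ) :
    avc (fun v : Fin K → Fin b => cexp (((t * W X v : ℝ) : ℂ) * I)) =
      (avc (fun a : Fin b => cexp (((((Real.sqrt K)⁻¹ * t) * X a : ℝ) : ℂ) * I))) ^ K := by
  rw [← prod_avc]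
  congr 1
  funext v
  rw [← Complex.exp_sum]
  congr 1
  rw [← Finset.sum_mul]
  congr 1
  rw [← Complex.ofReal_sum]
  congr 1
  unfold W
  rw [Finset.mul_sum, Finset.mul_sum]
  refine Finset.sum_congr rfl fun k _ => ?_
  ring

lemma exp_model (b : ℕ) (hb : 0 < b) (K : ℕ) (hK : 1 ≤ K) (X : Fin b → ℝ) (c : ℝ) (hc : 0 < c)
    (h0 : ∑ a, X a = 0) (hX : ∀ a, |X a| ≤ c) (s : ℝ) :
    av (fun v : Fin K → Fin b => Real.exp (s * W X v)) ≤ Real.exp (s ^ 2 * c ^ 2 / 2) := by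
  have hK' : (0 : ℝ) < K := by exact_mod_cast hK
  have e : (fun v : Fin K → Fin b => Real.exp (s * W X v)) = fun v : Fin K → Fin b =>
      ∏ k, Real.exp ((s * (Real.sqrt K)⁻¹) * X (v k)) := by
    funext v
    rw [← Real.exp_sum]
    congr 1
    unfold W
    rw [Finset.mul_sum, Finset.mul_sum]
    refine Finset.sum_congr rfl fun k _ => ?_
    ring
  rw [e, prod_av b K (fun a => Real.exp ((s * (Real.sqrt K)⁻¹) * X a))]
  have h1 := Pool.Agent.W349.NM.hoef b hb c hc X h0 hX (s * (Real.sqrt K)⁻¹)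
  have h2 : av (fun a : Fin b => Real.exp ((s * (Real.sqrt K)⁻¹) * X a)) ≤
      Real.exp ((s * (Real.sqrt K)⁻¹ * c) ^ 2 / 2) := by
    unfold av
    rw [Fintype.card_fin]
    exact h1
  refine (pow_le_pow_left₀ (av_nonneg fun a => (Real.exp_pos _).le) h2 K).trans (le_of_eq ?_)
  rw [← Real.exp_nat_mul]
  congr 1
  rw [mul_pow, mul_pow, inv_pow, Real.sq_sqrt hK'.le]
  field_simp

lemma mom_model (b : ℕ) (hb : 0 < b) (K : ℕ) (hK : 1 ≤ K) (X : Fin b → ℝ) (c : ℝ) (hc : 0 < c)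
    (h0 : ∑ a, X a = 0) (hX : ∀ a, |X a| ≤ c) (t : ℝ) (n : ℕ) :
    |t| ^ (2 * n) / (2 * n).factorial * av (fun v : Fin K → Fin b => W X v ^ (2 * n)) ≤
      2 * Real.exp (2 * t ^ 2 * c ^ 2) / 4 ^ n := by
  have h1 := exp_model b hb K hK X c hc h0 hX (2 * t)
  have h2 := exp_model b hb K hK X c hc h0 hX (-(2 * t))
  have e1 : (2 * t) ^ 2 * c ^ 2 / 2 = 2 * t ^ 2 * c ^ 2 := by ring
  have e2 : (-(2 * t)) ^ 2 * c ^ 2 / 2 = 2 * t ^ 2 * c ^ 2 := by ring
  rw [e1] at h1
  rw [e2] at h2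
  have h3 : av (fun v : Fin K → Fin b => (2 * t) ^ (2 * n) / (2 * n).factorial * W X v ^ (2 * n)) ≤
      av (fun v : Fin K → Fin b => Real.exp (2 * t * W X v) + Real.exp (-(2 * t) * W X v)) := by
    apply av_mono
    intro v
    set x := 2 * t * W X v with hx
    have h4 := Real.pow_div_factorial_le_exp |x| (abs_nonneg x) (2 * n)
    rw [pow_mul |x|, sq_abs, ← pow_mul] at h4
    have h5 : Real.exp |x| ≤ Real.exp x + Real.exp (-(2 * t) * W X v) := by
      have e3 : -(2 * t) * W X v = -x := by rw [hx]; ring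
      rw [e3]
      rcases abs_cases x with ⟨h5, -⟩ | ⟨h5, -⟩
      · rw [h5]
        linarith [Real.exp_pos (-x)]
      · rw [h5]
        linarith [Real.exp_pos x]
    refine le_trans (le_of_eq ?_) (h4.trans h5)
    rw [hx, mul_pow (2 * t)]
    ring
  rw [av_const_mul, av_add] at h3
  have h6 : (2 * t) ^ (2 * n) = 4 ^ n * |t| ^ (2 * n) := by
    rw [mul_pow, pow_mul |t|, sq_abs, ← pow_mul, pow_mul 2 2 n]
    norm_num
  rw [h6] at h3
  rw [le_div_iff₀ (by positivity)]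
  calc _ = 4 ^ n * |t| ^ (2 * n) / ↑(2 * n).factorial *
        av (fun v : Fin K → Fin b => W X v ^ (2 * n)) := by ring
    _ ≤ _ := h3
    _ ≤ _ := by linarith

end Pool.Agent.W930.NM
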