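import Pool.Agent.W930.NM.CltB

set_option autoImplicit false
set_option linter.unusedVariables false

/-!
Comparison with the model, characteristic functions.
-/

namespace Pool.Agent.W930.NM

open Filter Topology Set Finset Complex MeasureTheory ProbabilityTheory
open Pool.Agent.W261.NM

/-! ### digit words -/

lemma dig_lt {b : ℕ} (hb : 0 < b) (y : ℝ) (i : ℕ) : (dig b y i).toNat < b := by
  unfold dig
  have h1 := Int.emod_nonneg ⌊y * (b : ℝ) ^ i⌋ (show (b : ℤ) ≠ 0 by omega)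
  have h2 := Int.emod_lt_of_pos ⌊y * (b : ℝ) ^ i⌋ (show (0 : ℤ) < b by omega)
  omega

/-- digit words -/
noncomputable def dw {b : ℕ} (hb : 0 < b) (K : ℕ) (y : ℝ) (k : Fin K) : Fin b :=
  ⟨(dig b y ((k : ℕ) + 1)).toNat, dig_lt hb y _⟩

lemma dw_cast {b : ℕ} (hb : 0 < b) (K : ℕ) (y : ℝ) (k : Fin K) :
    (((dw hb K y k : Fin b) : ℕ) : ℤ) = dig b y ((k : ℕ) + 1) := by
  unfold dw
  simp only
  unfold dig
  exact Int.toNat_of_nonneg (Int.emod_nonneg _ (show (b : ℤ) ≠ 0 by omega))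

open Classical in
lemma cyl {b s N K : ℕ} {E : ℝ} {y : ℕ → ℝ} (h : Ind b s N K E y) (hb : 0 < b) (hE : 0 ≤ E)
    (hN : 1 ≤ N) (q : ℕ) (hq : q ≤ s) (κ : Fin q → Fin K) (c : Fin q → Fin b) :
    |av (fun m : Fin N => if ∀ i, dw hb K (y m) (κ i) = c i then (1 : ℝ) else 0) -
      av (fun v : Fin K → Fin b => if ∀ i, v (κ i) = c i then (1 : ℝ) else 0)| ≤ E := by
  have h1 := Pool.Agent.W349.NM.cmp (ι := Fin q) h le_rfl hb hE hN (by simpa using hq)
    (fun i => (κ i : ℕ)) (fun i => (κ i).2) (fun i => ((c i : ℕ) : ℤ))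
    (fun i => ⟨by positivity, by exact_mod_cast (c i).2⟩)
  have e1 : av (fun m : Fin N => if ∀ i, dw hb K (y m) (κ i) = c i then (1 : ℝ) else 0) =
      ((((Finset.range N).filter (fun m => ∀ i, dig b (y m) ((κ i : ℕ) + 1) =
        ((c i : ℕ) : ℤ))).card : ℕ) : ℝ) / N := by
    unfold av
    rw [Fintype.card_fin, Fin.sum_univ_eq_sum_range
      (fun m => if ∀ i, dw hb K (y m) (κ i) = c i then (1 : ℝ) else 0) N, Finset.sum_boole]
    congr 3
    apply Finset.filter_congr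
    intro m _
    refine forall_congr' fun i => ?_
    rw [← dw_cast hb K (y m) (κ i), Fin.ext_iff]
    exact_mod_cast Iff.rfl
  have e2 : av (fun v : Fin K → Fin b => if ∀ i, v (κ i) = c i then (1 : ℝ) else 0) =
      ((((Finset.univ : Finset (Fin K → Fin b)).filter
        (fun v => ∀ i, Pool.Agent.W349.NM.wd v (κ i : ℕ) = ((c i : ℕ) : ℤ))).card : ℕ) : ℝ) /
        (b : ℝ) ^ K := by
    unfold av
    rw [Fintype.card_fun, Fintype.card_fin, Fintype.card_fin, Finset.sum_boole]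
    push_cast
    congr 3
    apply Finset.filter_congr
    intro v _
    refine forall_congr' fun i => ?_
    unfold Pool.Agent.W349.NM.wd
    rw [dif_pos (κ i).2, Fin.ext_iff]
    exact_mod_cast Iff.rfl
  rw [e1, e2]
  convert h1

lemma mom_close {b s N K : ℕ} {E : ℝ} {y : ℕ → ℝ} (h : Ind b s N K E y) (hb : 0 < b) (hE : 0 ≤ E)
    (hN : 1 ≤ N) (hK : 1 ≤ K) (X : Fin b → ℝ) (M : ℝ) (hM0 : 0 ≤ M) (hM : ∀ a, |X a| ≤ M) (q : ℕ)
    (hq : q ≤ s) :
    |av (fun m : Fin N => W X (dw hb K (y m)) ^ q) - av (fun v : Fin K → Fin b => W X v ^ q)| ≤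
      (b : ℝ) ^ q * M ^ q * ((K : ℝ) ^ s * E) := by
  classical
  have hK' : (1 : ℝ) ≤ K := by exact_mod_cast hK
  have h1 := mom (fun m : Fin N => dw hb K (y m)) (fun v : Fin K → Fin b => v) X M E hM0 hM q
    (cyl h hb hE hN q hq)
  unfold W
  simp_rw [mul_pow]
  rw [av_const_mul, av_const_mul, ← mul_sub, abs_mul]
  have h2 : |(Real.sqrt K)⁻¹ ^ q| ≤ 1 := by
    rw [abs_of_nonneg (by positivity)]
    apply pow_le_one₀ (by positivity)
    apply inv_le_one_of_one_le₀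
    rw [Real.one_le_sqrt]
    exact hK'
  calc _ ≤ 1 * ((K : ℝ) ^ q * ((b : ℝ) ^ q * (M ^ q * E))) :=
        mul_le_mul h2 h1 (abs_nonneg _) zero_le_one
    _ = (b : ℝ) ^ q * M ^ q * ((K : ℝ) ^ q * E) := by ring
    _ ≤ _ := by
        gcongr

/-! ### the uniform distribution on the digits -/

/-- the normalised digit -/
noncomputable def X (b : ℕ) (a : Fin b) : ℝ :=
  (((a : ℕ) : ℝ) - ((b : ℝ) - 1) / 2) / Real.sqrt (((b : ℝ) ^ 2 - 1) / 12)

lemma sum1 (x : ℝ) (b : ℕ) : ∑ a ∈ Finset.range b, ((a : ℝ) - x) =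
    (b : ℝ) * ((b : ℝ) - 1) / 2 - b * x := by
  induction b with
  | zero => simp
  | succ b ih =>
    rw [Finset.sum_range_succ, ih]
    push_cast
    ring

lemma sum2 (x : ℝ) (b : ℕ) : ∑ a ∈ Finset.range b, ((a : ℝ) - x) ^ 2 =
    ((b : ℝ) - 1) * b * (2 * b - 1) / 6 - x * (b * (b - 1)) + b * x ^ 2 := by
  induction b with
  | zero => simp
  | succ b ih =>
    rw [Finset.sum_range_succ, ih]
    push_cast
    ring

lemma sum_X (b : ℕ) : ∑ a, X b a = 0 := by
  unfold X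
  rw [← Finset.sum_div, Fin.sum_univ_eq_sum_range (fun a : ℕ => (a : ℝ) - ((b : ℝ) - 1) / 2) b,
    sum1]
  ring

lemma sum_X_sq (b : ℕ) (hb : 2 ≤ b) : ∑ a, X b a ^ 2 = b := by
  have hb' : (2 : ℝ) ≤ b := by exact_mod_cast hb
  have h0 : (0 : ℝ) < ((b : ℝ) ^ 2 - 1) / 12 := by nlinarith
  unfold X
  simp_rw [div_pow]
  rw [← Finset.sum_div, Real.sq_sqrt h0.le,
    Fin.sum_univ_eq_sum_range (fun a : ℕ => ((a : ℝ) - ((b : ℝ) - 1) / 2) ^ 2) b, sum2,
    div_eq_iff h0.ne']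
  ring

lemma abs_X (b : ℕ) (a : Fin b) : |X b a| ≤ b / Real.sqrt (((b : ℝ) ^ 2 - 1) / 12) := by
  unfold X
  rw [abs_div, abs_of_nonneg (Real.sqrt_nonneg _)]
  gcongr
  have h1 : ((a : ℕ) : ℝ) + 1 ≤ b := by exact_mod_cast a.2
  have h2 : (0 : ℝ) ≤ ((a : ℕ) : ℝ) := by positivity
  rw [abs_le]
  constructor <;> linarith

lemma charFun_unif (b : ℕ) [NeZero b] (Y : Fin b → ℝ) (s : ℝ) :
    charFun ((PMF.uniformOfFintype (Fin b)).toMeasure.map Y) s =
      avc (fun a : Fin b => cexp (((s * Y a : ℝ) : ℂ) * I)) := by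
  rw [charFun_apply_real, integral_map (measurable_of_finite _).aemeasurable (by fun_prop),
    PMF.integral_eq_sum]
  unfold avc
  rw [Finset.sum_div]
  refine Finset.sum_congr rfl fun a _ => ?_
  rw [PMF.uniformOfFintype_apply, Fintype.card_fin, ENNReal.toReal_inv, ENNReal.toReal_natCast,
    Complex.real_smul]
  push_cast
  rw [div_eq_inv_mul]

lemma model_tendsto (b : ℕ) (hb : 2 ≤ b) (t : ℝ) :
    Tendsto (fun K : ℕ => avc (fun v : Fin K → Fin b => cexp (((t * W (X b) v : ℝ) : ℂ) * I)))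
      atTop (𝓝 (cexp (- (t : ℂ) ^ 2 / 2))) := by
  have : NeZero b := ⟨by omega⟩
  have hb' : (2 : ℝ) ≤ b := by exact_mod_cast hb
  have h := tendsto_charFun_inv_sqrt_mul_pow (P := (PMF.uniformOfFintype (Fin b)).toMeasure)
    (X := X b) (measurable_of_finite _).aemeasurable
    (by
      rw [PMF.integral_eq_sum]
      simp_rw [PMF.uniformOfFintype_apply, smul_eq_mul]
      rw [← Finset.mul_sum, sum_X, mul_zero])
    (by
      rw [PMF.integral_eq_sum]
      simp_rw [PMF.uniformOfFintype_apply, smul_eq_mul, Pi.pow_apply]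
      rw [← Finset.mul_sum, sum_X_sq b hb, Fintype.card_fin, ENNReal.toReal_inv,
        ENNReal.toReal_natCast]
      field_simp) t
  refine h.congr fun K => ?_
  rw [char_model, charFun_unif]

end Pool.Agent.W930.NM
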